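import Mathlib

set_option autoImplicit false

namespace Pool.Agent.Results.MP_c7ad22_co.Bipartite

open Finset

/-- The three positions `x, y, z` are distinct and occur in this cyclic order. -/
def Cyc (x y z : ℕ) : Prop := (x < y ∧ y < z) ∨ (y < z ∧ z < x) ∨ (z < x ∧ x < y)

/-- The circularly ordered graph `H` (vertices `0, …, m-1` in this circular order) occurs in `G`
with the circular ordering given by the positions `c`: an induced copy respecting the cyclic
order of all triples. -/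
def Occurs {m n : ℕ} (H : SimpleGraph (Fin m)) (G : SimpleGraph (Fin n)) (c : Fin n ≃ Fin n) :
    Prop :=
  ∃ φ : Fin m → Fin n, Function.Injective φ ∧ (∀ u v, H.Adj u v ↔ G.Adj (φ u) (φ v)) ∧
    ∀ u v w : Fin m, Cyc u v w ↔ Cyc (c (φ u)) (c (φ v)) (c (φ w))

/-- `G` is `F`-free circularly orderable. -/
def FreeOrderable (F : Set (Σ m, SimpleGraph (Fin m))) {n : ℕ} (G : SimpleGraph (Fin n)) : Prop :=
  ∃ c : Fin n ≃ Fin n, ∀ H ∈ F, ¬ Occurs H.2 G c

lemma num (r Q : ℕ) (hQ : 1 ≤ Q) :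
    ∃ T : ℕ, 0 < T ∧ 2 * (2 * (T * r)) ^ (2 * (2 * (T * r))) * (Q - 1) ^ (T * T) < Q ^ (T * T) := by
  have hQ' : (0 : ℝ) < Q := by exact_mod_cast hQ
  set ρ : ℝ := ((Q - 1 : ℕ) : ℝ) / Q with hρ
  have h0 : 0 ≤ ρ := by positivity
  have h1 : |ρ| < 1 := by
    rw [abs_of_nonneg h0, div_lt_one hQ']
    exact_mod_cast (by omega : Q - 1 < Q)
  have h2 := (tendsto_pow_const_mul_const_pow_of_abs_lt_one (4 * r) h1).const_mul
    ((2 * r : ℝ) ^ (4 * r))
  rw [mul_zero] at h2
  obtain ⟨T, hT, hT1⟩ := ((h2.eventually (gt_mem_nhds (show (0 : ℝ) < 1 / 4 by norm_num))).and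
    (Filter.eventually_gt_atTop 0)).exists
  refine ⟨T, hT1, ?_⟩
  have h3 : ((2 * r : ℝ) ^ (4 * r) * ((T : ℝ) ^ (4 * r) * ρ ^ T)) ^ T ≤ (1 / 4) ^ T :=
    pow_le_pow_left₀ (by positivity) hT.le T
  have h4 : ((1 : ℝ) / 4) ^ T ≤ 1 / 4 := pow_le_of_le_one (by norm_num) (by norm_num) hT1.ne'
  have h5 : ((2 * r : ℝ) ^ (4 * r) * ((T : ℝ) ^ (4 * r) * ρ ^ T)) ^ T * (Q : ℝ) ^ (T * T) =
      (2 * (T * r) : ℝ) ^ (2 * (2 * (T * r))) * ((Q - 1 : ℕ) : ℝ) ^ (T * T) := by
    rw [← mul_assoc, ← mul_pow, mul_pow, ← pow_mul, ← pow_mul, hρ, div_pow, mul_assoc,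
      div_mul_cancel₀ _ (by positivity)]
    congr 1
    rw [show (2 * r * T : ℝ) = 2 * (T * r) by ring]
    congr 1
    ring
  have h6 : (0 : ℝ) < (Q : ℝ) ^ (T * T) := by positivity
  have : (2 : ℝ) * (2 * (T * r) : ℝ) ^ (2 * (2 * (T * r))) * ((Q - 1 : ℕ) : ℝ) ^ (T * T) <
      (Q : ℝ) ^ (T * T) := by
    rw [mul_assoc, ← h5]
    nlinarith
  exact_mod_cast this

def e (T r : ℕ) : Fin 2 × Fin T × Fin r ≃ Fin (2 * (T * r)) :=
  (Equiv.prodCongr (Equiv.refl _) finProdFinEquiv).trans finProdFinEquiv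

lemma e_val (T r : ℕ) (b : Fin 2) (t : Fin T) (i : Fin r) :
    (e T r (b, t, i) : ℕ) = i + r * t + T * r * b := by
  simp [e, finProdFinEquiv]

lemma bad_card (T r : ℕ) (M : Fin r → Fin r → Bool) (σ τ : Equiv.Perm (Fin (2 * (T * r))))
    (a b : Fin 2) :
    (univ.filter (fun g : Fin (2 * (T * r)) → Fin (2 * (T * r)) → Bool =>
      ∀ t u : Fin T, (fun i j => g (σ (e T r (a, t, i))) (τ (e T r (b, u, j)))) ≠ M)).card *
      (2 ^ (r * r)) ^ (T * T) ≤
    (2 ^ (r * r) - 1) ^ (T * T) *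
      Fintype.card (Fin (2 * (T * r)) → Fin (2 * (T * r)) → Bool) := by
  classical
  let B := Fin r → Fin r → Bool
  let I := (Fin 2 × Fin T) × (Fin 2 × Fin T)
  let Φ : (Fin (2 * (T * r)) → Fin (2 * (T * r)) → Bool) ≃ (I → B) :=
    { toFun := fun g p i j => g (σ (e T r (p.1.1, p.1.2, i))) (τ (e T r (p.2.1, p.2.2, j)))
      invFun := fun h x y =>
        h ((((e T r).symm (σ.symm x)).1, ((e T r).symm (σ.symm x)).2.1),
          (((e T r).symm (τ.symm y)).1, ((e T r).symm (τ.symm y)).2.1))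
          ((e T r).symm (σ.symm x)).2.2 ((e T r).symm (τ.symm y)).2.2
      left_inv := fun g => by funext x y; simp
      right_inv := fun h => by funext p i j; simp }
  let S : I → Finset B := fun p => if p.1.1 = a ∧ p.2.1 = b then univ.erase M else univ
  have h1 : (univ.filter (fun g : Fin (2 * (T * r)) → Fin (2 * (T * r)) → Bool =>
      ∀ t u : Fin T, (fun i j => g (σ (e T r (a, t, i))) (τ (e T r (b, u, j)))) ≠ M)).card ≤
      (Fintype.piFinset S).card := by
    refine card_le_card_of_injOn Φ (fun g hg => ?_) Φ.injective.injOn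
    simp only [coe_filter, mem_univ, true_and, Set.mem_ofPred_eq] at hg
    simp only [Fintype.coe_piFinset, Set.mem_pi, Set.mem_univ, forall_const, mem_coe]
    rintro ⟨⟨a', t⟩, ⟨b', u⟩⟩
    simp only [S]
    split_ifs with h
    · obtain ⟨rfl, rfl⟩ := h
      exact mem_erase.2 ⟨hg t u, mem_univ _⟩
    · exact mem_univ _
  have hB : Fintype.card B = 2 ^ (r * r) := by simp [B, ← pow_mul]
  have hI : (univ.filter (fun p : I => p.1.1 = a ∧ p.2.1 = b)).card = T * T := by
    rw [show T * T = (univ : Finset (Fin T × Fin T)).card by simp]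
    symm
    refine card_bij (fun p _ => ((a, p.1), (b, p.2))) (by simp) ?_ ?_
    · rintro ⟨t, u⟩ - ⟨t', u'⟩ - h
      simpa [I, Prod.ext_iff] using h
    · rintro ⟨⟨a', t⟩, ⟨b', u⟩⟩ h
      simp only [mem_filter, mem_univ, true_and] at h
      obtain ⟨rfl, rfl⟩ := h
      exact ⟨(t, u), mem_univ _, rfl⟩
  have h2 : (Fintype.piFinset S).card * (2 ^ (r * r)) ^ (T * T) =
      (2 ^ (r * r) - 1) ^ (T * T) * Fintype.card (I → B) := by
    rw [Fintype.card_piFinset, Fintype.card_fun, hB, ← card_univ,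
      ← card_filter_add_card_filter_not (s := (univ : Finset I))
        (fun p : I => p.1.1 = a ∧ p.2.1 = b), hI, pow_add]
    have : ∀ p, (S p).card = if p.1.1 = a ∧ p.2.1 = b then 2 ^ (r * r) - 1 else 2 ^ (r * r) := by
      intro p
      simp only [S]
      split_ifs
      · rw [card_erase_of_mem (mem_univ _), card_univ, hB]
      · rw [card_univ, hB]
    simp only [this]
    rw [prod_ite, prod_const, prod_const, hI]
    ring
  rw [Fintype.card_congr Φ, ← h2]
  exact Nat.mul_le_mul_right _ h1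

lemma exists_g (r : ℕ) (M : Fin r → Fin r → Bool) :
    ∃ T : ℕ, 0 < T ∧ ∃ g : Fin (2 * (T * r)) → Fin (2 * (T * r)) → Bool,
      ∀ (σ τ : Equiv.Perm (Fin (2 * (T * r)))) (a : Fin 2), ∃ t u : Fin T,
        ∀ i j, g (σ (e T r (a, t, i))) (τ (e T r (a + 1, u, j))) = M i j := by
  classical
  obtain ⟨T, hT, h⟩ := num r (2 ^ (r * r)) Nat.one_le_two_pow
  refine ⟨T, hT, ?_⟩
  by_contra hn
  push Not at hn
  set N := 2 * (T * r) with hN
  let bad : Equiv.Perm (Fin N) × Equiv.Perm (Fin N) × Fin 2 → Finset (Fin N → Fin N → Bool) :=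
    fun p => univ.filter (fun g =>
      ∀ t u : Fin T, (fun i j => g (p.1 (e T r (p.2.2, t, i))) (p.2.1 (e T r (p.2.2 + 1, u, j))))
        ≠ M)
  have h1 : (univ : Finset (Fin N → Fin N → Bool)) ⊆ univ.biUnion bad := by
    intro g _
    obtain ⟨σ, τ, a, hh⟩ := hn g
    refine mem_biUnion.2 ⟨(σ, τ, a), mem_univ _, mem_filter.2 ⟨mem_univ _, fun t u e' => ?_⟩⟩
    obtain ⟨i, j, hij⟩ := hh t u
    exact hij (congrFun (congrFun e' i) j)
  have h2 := (card_le_card h1).trans card_biUnion_le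
  have h3 := Nat.mul_le_mul_right ((2 ^ (r * r)) ^ (T * T)) h2
  rw [sum_mul] at h3
  have h4 := h3.trans (sum_le_sum fun p _ => bad_card T r M p.1 p.2.1 p.2.2 (p.2.2 + 1))
  rw [sum_const, card_univ, card_univ, smul_eq_mul, ← hN] at h4
  have h5 : Fintype.card (Equiv.Perm (Fin N) × Equiv.Perm (Fin N) × Fin 2) ≤
      2 * N ^ (2 * N) := by
    simp only [Fintype.card_prod, Fintype.card_perm, Fintype.card_fin]
    have := Nat.factorial_le_pow N
    rw [two_mul N, pow_add]
    nlinarith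
  have h6 : 0 < Fintype.card (Fin N → Fin N → Bool) := Fintype.card_pos
  have h7 := h4.trans (Nat.mul_le_mul_right _ h5)
  rw [← mul_assoc, mul_comm] at h7
  exact absurd (Nat.le_of_mul_le_mul_right h7 h6) (not_le.2 h)

lemma ordering (r : ℕ) (hr : 0 < r) (M : Fin r → Fin r → Bool) :
    ∃ (N : ℕ) (g : Fin N → Fin N → Bool), ∀ p q : Fin N → ℕ, Function.Injective p →
      Function.Injective q → (∀ x y, p x ≠ q y) →
      ∃ α β : Fin r → Fin N, (∀ i j, g (α i) (β j) = M i j) ∧ StrictMono (p ∘ α) ∧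
        StrictMono (q ∘ β) ∧ ((∀ i j, p (α i) < q (β j)) ∨ ∀ i j, q (β j) < p (α i)) := by
  obtain ⟨T, hT, g, hg⟩ := exists_g r M
  refine ⟨_, g, fun p q hp hq hpq => ?_⟩
  have sp : StrictMono (p ∘ Tuple.sort p) :=
    (Tuple.monotone_sort p).strictMono_of_injective (hp.comp (Tuple.sort p).injective)
  have sq : StrictMono (q ∘ Tuple.sort q) :=
    (Tuple.monotone_sort q).strictMono_of_injective (hq.comp (Tuple.sort q).injective)
  have hTr : 0 < T * r := Nat.mul_pos hT hr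
  let mid : Fin (2 * (T * r)) := ⟨T * r, by omega⟩
  have lo : ∀ t i, e T r (0, t, i) ≤ mid := fun t i => by
    rw [Fin.le_def, e_val]
    have h1 := i.2
    have h2 : r * (t + 1) ≤ r * T := Nat.mul_le_mul_left r t.2
    simp only [mid, Fin.val_zero]
    nlinarith
  have hi : ∀ t i, mid ≤ e T r (1, t, i) := fun t i => by
    rw [Fin.le_def, e_val]
    simp [mid]
  have sm : ∀ b t, StrictMono (fun i => e T r (b, t, i)) := fun b t i j hij => by
    rw [Fin.lt_def, e_val, e_val]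
    have : i.1 < j.1 := hij
    omega
  rcases lt_or_gt_of_ne (hpq (Tuple.sort p mid) (Tuple.sort q mid)) with h | h
  · obtain ⟨t, u, htu⟩ := hg (Tuple.sort p) (Tuple.sort q) 0
    exact ⟨_, _, htu, sp.comp (sm 0 t), sq.comp (sm 1 u), Or.inl fun i j =>
      ((sp.monotone (lo t i)).trans_lt h).trans_le (sq.monotone (hi u j))⟩
  · obtain ⟨t, u, htu⟩ := hg (Tuple.sort p) (Tuple.sort q) 1
    exact ⟨_, _, htu, sp.comp (sm 1 t), sq.comp (sm 0 u), Or.inr fun i j =>
      ((sq.monotone (lo u j)).trans_lt h).trans_le (sp.monotone (hi t i))⟩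

def C (r : ℕ) : SimpleGraph (Fin (2 * r + 1)) where
  Adj i j := i ≠ j ∧ (i.1 + r = j ∨ i.1 + r + 1 = j ∨ j.1 + r = i ∨ j.1 + r + 1 = i)
  symm := ⟨fun i j h => ⟨h.1.symm, by tauto⟩⟩
  loopless := ⟨fun _ h => h.1 rfl⟩

lemma C_not (r : ℕ) (hr : 0 < r) : ¬ (C r).Colorable 2 := by
  rintro ⟨f⟩
  have k : ∀ a b c : Fin 2, a ≠ b → c ≠ b → a = c := by decide
  have h : ∀ i (hi : i ≤ r), f ⟨i, by omega⟩ = f ⟨0, by omega⟩ := by
    intro i
    induction i with
    | zero => intro _; rfl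
    | succ i ih =>
      intro hi
      rw [← ih (by omega)]
      refine k _ (f ⟨i + r + 1, by omega⟩) _ (f.valid ⟨?_, ?_⟩) (f.valid ⟨?_, ?_⟩)
      · simp [Fin.ext_iff]; omega
      · simp; omega
      · simp [Fin.ext_iff]; omega
      · simp
  exact f.valid (v := ⟨r, by omega⟩) (w := ⟨0, by omega⟩)
    ⟨by simp [Fin.ext_iff]; omega, by simp⟩ (h r le_rfl)

def Gr {N : ℕ} (g : Fin N → Fin N → Bool) : SimpleGraph (Fin N ⊕ Fin N) where
  Adj x y := match x, y with
    | Sum.inl a, Sum.inr b => g a b = true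
    | Sum.inr b, Sum.inl a => g a b = true
    | _, _ => False
  symm := ⟨fun x y => by cases x <;> cases y <;> exact id⟩
  loopless := ⟨fun x => by cases x <;> exact id⟩

lemma rot1 (x L a b c a' b' c' : ℕ) (_hx : x < L + 1)
    (ha : (x < a ∧ a' + x + 1 = a ∨ a < x ∧ a' + x = a + L) ∧ a < L + 1)
    (hb : (x < b ∧ b' + x + 1 = b ∨ b < x ∧ b' + x = b + L) ∧ b < L + 1)
    (hc : (x < c ∧ c' + x + 1 = c ∨ c < x ∧ c' + x = c + L) ∧ c < L + 1) :
    Cyc a b c ↔ Cyc a' b' c' := by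
  unfold Cyc
  rcases ha with ⟨ha | ha, ha'⟩ <;> rcases hb with ⟨hb | hb, hb'⟩ <;>
    rcases hc with ⟨hc | hc, hc'⟩ <;> omega

lemma rot2 (r o a b c : ℕ) (ho : o = 0 ∨ o = 2 * r) (ha : a < 2 * r) (hb : b < 2 * r)
    (hc : c < 2 * r) : Cyc a b c ↔ Cyc (if a < r then a + o else a) (if b < r then b + o else b)
      (if c < r then c + o else c) := by
  unfold Cyc
  rcases ho with rfl | rfl <;> split_ifs <;> omega

theorem result : ¬ ∃ F : Set (Σ m, SimpleGraph (Fin m)), F.Finite ∧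
    ∀ (n : ℕ) (G : SimpleGraph (Fin n)), G.Colorable 2 ↔ FreeOrderable F G := by
  classical
  rintro ⟨F, hF, h⟩
  obtain ⟨s, hs⟩ := (hF.image Sigma.fst).bddAbove
  set r := s + 1 with hr
  have h1 := mt (h _ (C r)).2 (C_not r (by omega))
  simp only [FreeOrderable, not_exists, not_forall, not_not] at h1
  obtain ⟨⟨m, H⟩, hH, φ, φi, φa, φc⟩ := h1 (Equiv.refl _)
  have hm : m ≤ s := hs ⟨_, hH, rfl⟩
  obtain ⟨x, hx⟩ : ∃ x, ∀ u, φ u ≠ x := by
    by_contra hh
    push Not at hh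
    have := Fintype.card_le_of_surjective φ hh
    simp at this
    omega
  let k : Fin m → ℕ := fun u => if x.1 < φ u then φ u - x - 1 else φ u + 2 * r - x
  have kk : ∀ u, (x.1 < φ u ∧ k u + x + 1 = φ u ∨ (φ u).1 < x ∧ k u + x = φ u + 2 * r) ∧
      (φ u).1 < 2 * r + 1 := fun u => by
    have := (φ u).2
    have := x.2
    have : (φ u).1 ≠ x.1 := fun e => hx u (Fin.ext e)
    simp only [k]
    split_ifs <;> omega
  have hx2 := x.2
  obtain ⟨N, g, hg⟩ := ordering r (by omega) (fun i j => decide (j.1 = i ∨ j.1 = i + 1))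
  let G : SimpleGraph (Fin (N + N)) := (Gr g).comap finSumFinEquiv.symm
  have hG : G.Colorable 2 := by
    refine ⟨SimpleGraph.Coloring.mk
      (fun v => (finSumFinEquiv.symm v).elim (fun _ => 0) (fun _ => 1)) fun {v w} hvw => ?_⟩
    simp only [G, SimpleGraph.comap_adj] at hvw
    rcases hv : finSumFinEquiv.symm v with a | a <;> rcases hw : finSumFinEquiv.symm w with b | b <;>
      simp_all [Gr]
  obtain ⟨c, hc⟩ := (h _ G).1 hG
  obtain ⟨α, β, e1, e2, e3, e4⟩ := hg (fun a => c (finSumFinEquiv (Sum.inl a)))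
    (fun b => c (finSumFinEquiv (Sum.inr b)))
    (fun a b e => Sum.inl_injective (finSumFinEquiv.injective (c.injective (Fin.ext e))))
    (fun a b e => Sum.inr_injective (finSumFinEquiv.injective (c.injective (Fin.ext e))))
    (fun a b e => Sum.inl_ne_inr (finSumFinEquiv.injective (c.injective (Fin.ext e))))
  let ψ : Fin m → Fin N ⊕ Fin N := fun u =>
    if h : k u < r then Sum.inl (α ⟨k u, h⟩) else Sum.inr (β ⟨k u - r, by have := kk u; omega⟩)
  let P : Fin m → ℕ := fun u => c (finSumFinEquiv (ψ u))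
  have pAA : ∀ u v, k u < r → k v < r → (P u < P v ↔ k u < k v) := fun u v hu hv => by
    simp only [P, ψ, dif_pos hu, dif_pos hv]
    exact e2.lt_iff_lt
  have pBB : ∀ u v, ¬ k u < r → ¬ k v < r → (P u < P v ↔ k u < k v) := fun u v hu hv => by
    simp only [P, ψ, dif_neg hu, dif_neg hv]
    refine e3.lt_iff_lt.trans ?_
    rw [Fin.lt_def]
    simp only
    omega
  have pAB : (∀ u v, k u < r → ¬ k v < r → P u < P v) ∨
      (∀ u v, k u < r → ¬ k v < r → P v < P u) := by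
    refine e4.imp (fun e u v hu hv => ?_) (fun e u v hu hv => ?_)
    · simp only [P, ψ, dif_pos hu, dif_neg hv]
      exact e _ _
    · simp only [P, ψ, dif_pos hu, dif_neg hv]
      exact e _ _
  obtain ⟨o, ho⟩ : ∃ o : ℕ, (o = 0 ∨ o = 2 * r) ∧ ∀ u v, P u < P v ↔
      (if k u < r then k u + o else k u) < (if k v < r then k v + o else k v) := by
    rcases pAB with e | e
    · refine ⟨0, Or.inl rfl, fun u v => ?_⟩
      have := pAA u v
      have := pBB u v
      have := e u v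
      have := e v u
      split_ifs <;> omega
    · refine ⟨2 * r, Or.inr rfl, fun u v => ?_⟩
      have := pAA u v
      have := pBB u v
      have := e u v
      have := e v u
      have := kk u
      have := kk v
      split_ifs <;> omega
  refine hc _ hH ⟨fun u => finSumFinEquiv (ψ u), fun u v e => φi (Fin.ext ?_), fun u v => ?_,
    fun u v w => ?_⟩
  · have e' : P u = P v := congrArg (fun z => (c z : ℕ)) e
    have h1 := ho.2 u v
    have h2 := ho.2 v u
    have h3 := ho.1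
    have := kk u
    have := kk v
    split_ifs at h1 h2 <;> omega
  · rw [φa]
    simp only [G, SimpleGraph.comap_adj, Equiv.symm_apply_apply, ψ, C, ne_eq, Fin.ext_iff]
    have := kk u
    have := kk v
    split_ifs with a b b <;> simp only [Gr, e1, decide_eq_true_eq, iff_false] <;> omega
  · rw [φc]
    show Cyc (φ u) (φ v) (φ w) ↔ Cyc (P u) (P v) (P w)
    have kl : ∀ u, k u < 2 * r := fun u => by have := kk u; omega
    rw [rot1 x (2 * r) _ _ _ _ _ _ hx2 (kk u) (kk v) (kk w),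
      rot2 r o _ _ _ ho.1 (kl u) (kl v) (kl w)]
    simp only [Cyc, ho.2]

end Pool.Agent.Results.MP_c7ad22_co.Bipartite
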